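import Pool.Agent.K1H70.FP.Stm
import Pool.Agent.W528.HS.Main
import Pool.Agent.W326.HS.EI
import Pool.Agent.W111.HS.EC
import Pool.Agent.W63.HS.TR
import Pool.Agent.W804.HS.RD

/-!
# Frobenius and actions of abelian `p`-groups: congruences
-/

set_option autoImplicit false

namespace Pool.Agent.K1H70.FP

open Finset Polynomial Module Pool.Agent.W528.HS

/-- `exp (∑ N m T ^ m / m) = P₂ / P₁` with integral polynomials `P₁`, `P₂` with constant term `1`, and `H` is the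
reduction modulo `p` of `P₁ / P₂` if `n` is even, of `P₂ / P₁` if `n` is odd. -/
def ZetaMod (E : Type) [Field E] (p n : ℕ) (N : ℕ → ℕ) (H : (ZMod p)[X]) : Prop :=
  ∃ (P₁ P₂ : ℤ[X]) (B₁ B₂ : Multiset E), P₁.coeff 0 = 1 ∧ P₂.coeff 0 = 1 ∧
    P₁.map (Int.castRingHom E) = (B₁.map fun x => 1 - C x * X).prod ∧
    P₂.map (Int.castRingHom E) = (B₂.map fun x => 1 - C x * X).prod ∧
    (∀ m : ℕ, 1 ≤ m → (N m : E) = (B₁.map fun x => x ^ m).sum - (B₂.map fun x => x ^ m).sum) ∧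
    (Even n → H * P₂.map (Int.castRingHom (ZMod p)) = P₁.map (Int.castRingHom (ZMod p))) ∧
    (Odd n → H * P₁.map (Int.castRingHom (ZMod p)) = P₂.map (Int.castRingHom (ZMod p)))

theorem orbN_inv {G X E : Type} [CommGroup G] [MulAction G X] [Field E] (Fr : Equiv.Perm X)
    (ψ : G →* Eˣ) (m : ℕ) : orbN Fr ψ⁻¹ m = orbN Fr ψ m := by
  unfold orbN
  have h : (ψ⁻¹).ker = ψ.ker := by
    ext g
    simp [MonoidHom.mem_ker]
  rw [h]

/-- The characteristic polynomial of Frobenius on the part of a character modulo `p`. -/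
theorem cng (hOCX : S_OCX) {p r : ℕ} (hp : p.Prime) {G Y E : Type} [CommGroup G] [Fintype G]
    [MulAction G Y] [Field E] [CharZero E] [IsAlgClosed E] (hG : Fintype.card G = p ^ r)
    (Fr : Equiv.Perm Y) (hFr : ∀ (g : G) (x : Y), Fr (g • x) = g • Fr x)
    (hfin : ∀ m : ℕ, 1 ≤ m → ∀ g : G, {x : Y | (Fr ^ m) x = g • x}.Finite)
    (ψ : G →* Eˣ) {W : Type} [AddCommGroup W] [Module E W] [FiniteDimensional E W]
    (Φ : Module.End E W) (n : ℕ)
    (hΦ : ∀ m : ℕ, 1 ≤ m → (Fintype.card G : E) * ((-1) ^ n * LinearMap.trace E W (Φ ^ m))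
      = ∑ g : G, ((ψ g)⁻¹ : Eˣ) * ({x : Y | (Fr ^ m) x = g • x}.ncard : E))
    {H : (ZMod p)[X]} (hH : ZetaMod E p n (orbN Fr ψ) H) :
    ∃ (k : Type) (_ : Field k) (_ : CharP k p) (θ : (integralClosure ℤ E).toSubring →+* k)
      (A' : Multiset (integralClosure ℤ E).toSubring),
      A'.map Subtype.val = Φ.charpoly.roots ∧
      (A'.map fun x => 1 - C (θ x) * X).prod = H.map (ZMod.castHom (dvd_refl p) k) := by
  classical
  have hfact : Fact p.Prime := ⟨hp⟩
  obtain ⟨P₁, P₂, B₁, B₂, hP₁, hP₂, hB₁, hB₂, hN, hev, hodd⟩ := hH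
  have hNpos : 0 < p ^ r := pow_pos hp.pos r
  have hne : NeZero ((p ^ r : ℕ) : E) := ⟨by exact_mod_cast hNpos.ne'⟩
  obtain ⟨μ, hμ⟩ := HasEnoughRootsOfUnity.exists_primitiveRoot E (p ^ r)
  have hcard0 : (Fintype.card G : E) ≠ 0 := by
    rw [hG]; exact_mod_cast hNpos.ne'
  have hψN : ∀ g : G, ((ψ⁻¹ : G →* Eˣ) g : E) ^ (p ^ r) = 1 := by
    intro g
    have h1 : g ^ (p ^ r) = 1 := by rw [← hG]; exact pow_card_eq_one
    have h2 : ((ψ⁻¹ : G →* Eˣ) g) ^ (p ^ r) = 1 := by rw [← map_pow, h1, map_one]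
    rw [← Units.val_pow_eq_pow_val, h2, Units.val_one]
  obtain ⟨a, ha⟩ := hOCX G Y E Fr hFr hfin (p ^ r) μ hNpos hμ ψ⁻¹ hψN
  have hS : ∀ m, 1 ≤ m → orbSum (p ^ r) μ a m
      = (((-1) ^ n : ℤ) : E) * (Φ.charpoly.roots.map fun x => x ^ m).sum := by
    intro m hm
    have h1 := (ha m hm).1
    have h2 := hΦ m hm
    rw [Pool.Agent.W63.HS.TR.main E W Φ m] at h2
    apply mul_left_cancel₀ hcard0
    rw [← h1]
    push_cast
    rw [h2]
    rfl
  have hU' : ∀ m, 1 ≤ m → orbSum (p ^ r) (1 : E) a m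
      = (B₁.map fun x => x ^ m).sum - (B₂.map fun x => x ^ m).sum := by
    intro m hm
    rw [← (ha m hm).2, orbN_inv, hN m hm]
  have hA : ∀ x ∈ Φ.charpoly.roots, IsIntegral ℤ x := by
    refine Pool.Agent.W326.HS.EI.main E (p ^ r) μ hNpos hμ.pow_eq_one a Φ.charpoly.roots
      ((-1) ^ n) ?_ hS
    rcases Nat.even_or_odd n with h | h
    · left; exact h.neg_one_pow
    · right; exact h.neg_one_pow
  obtain ⟨k, _, _, ⟨θ⟩⟩ := Pool.Agent.W804.HS.RD.main E p hp
  have hlift : ∀ M : Multiset E, (∀ x ∈ M, IsIntegral ℤ x) →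
      ∃ M' : Multiset (integralClosure ℤ E).toSubring, M'.map Subtype.val = M := by
    intro M hM
    have hM' : ∀ x ∈ M, x ∈ (integralClosure ℤ E).toSubring := hM
    refine ⟨M.pmap (fun x hx => (⟨x, hx⟩ : (integralClosure ℤ E).toSubring)) hM', ?_⟩
    rw [Multiset.map_pmap, Multiset.pmap_eq_map, Multiset.map_id']
  obtain ⟨A', hA'⟩ := hlift _ hA
  obtain ⟨B₁', hB₁'⟩ := hlift _ (integral_of_poly hP₁ hB₁)
  obtain ⟨B₂', hB₂'⟩ := hlift _ (integral_of_poly hP₂ hB₂)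
  have hmap : ∀ (M : Multiset E) (M' : Multiset (integralClosure ℤ E).toSubring),
      M'.map Subtype.val = M → ∀ m : ℕ,
      ((do let a ← M'; pure (a : E) : Multiset E).map fun x => x ^ m).sum
      = (M.map fun x => x ^ m).sum := by
    intro M M' h m
    rw [lift_eq, h]
  have hμO : ∃ h : μ ∈ (integralClosure ℤ E).toSubring, θ ⟨μ, h⟩ = 1 := by
    have h1 : IsIntegral ℤ μ := hμ.isIntegral hNpos
    refine ⟨h1, ?_⟩
    set y := θ ⟨μ, h1⟩ with hy
    have h2 : y ^ (p ^ r) = 1 := by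
      rw [hy, ← map_pow]
      have : (⟨μ, h1⟩ : (integralClosure ℤ E).toSubring) ^ (p ^ r) = 1 := by
        apply Subtype.ext
        push_cast
        exact hμ.pow_eq_one
      rw [this, map_one]
    have h3 : (y - 1) ^ (p ^ r) = 0 := by
      rw [sub_pow_char_pow, h2, one_pow, sub_self]
    exact sub_eq_zero.mp (pow_eq_zero_iff (hNpos.ne') |>.mp h3)
  refine ⟨k, inferInstance, inferInstance, θ, A', hA', ?_⟩
  let ι : ZMod p →+* k := ZMod.castHom (dvd_refl p) k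
  have hι : ∀ P : ℤ[X], (P.map (Int.castRingHom (ZMod p))).map ι = P.map (Int.castRingHom k) := by
    intro P
    rw [Polynomial.map_map]
    congr 1
    exact RingHom.ext_int _ _
  have hne' : ∀ P : ℤ[X], P.coeff 0 = 1 → P.map (Int.castRingHom k) ≠ 0 := by
    intro P hP h
    have h3 := congrArg (fun Q => Polynomial.coeff Q 0) h
    simp only [coeff_map, hP, coeff_zero, map_one] at h3
    exact one_ne_zero h3
  rcases Nat.even_or_odd n with hn | hn
  · have h := Pool.Agent.W111.HS.EC.main E (p ^ r) μ hNpos hμ.pow_eq_one a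
      (integralClosure ℤ E).toSubring A' 0 B₁' B₂'
      (by
        intro m hm
        rw [hS m hm, hn.neg_one_pow, hmap _ _ hA' m]
        simp) (by
        intro m hm
        rw [hU' m hm, hmap _ _ hB₁' m, hmap _ _ hB₂' m]) k θ hμO
    rw [red_prod hB₁ hB₁' θ, red_prod hB₂ hB₂' θ] at h
    have h3 := congrArg (Polynomial.map ι) (hev hn)
    rw [Polynomial.map_mul, hι, hι] at h3
    refine mul_right_cancel₀ (hne' P₂ hP₂) (Eq.trans ?_ h3.symm)
    simpa using h
  · have h := Pool.Agent.W111.HS.EC.main E (p ^ r) μ hNpos hμ.pow_eq_one a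
      (integralClosure ℤ E).toSubring 0 A' B₁' B₂'
      (by
        intro m hm
        rw [hS m hm, hn.neg_one_pow, hmap _ _ hA' m]
        simp) (by
        intro m hm
        rw [hU' m hm, hmap _ _ hB₁' m, hmap _ _ hB₂' m]) k θ hμO
    rw [red_prod hB₁ hB₁' θ, red_prod hB₂ hB₂' θ] at h
    have h3 := congrArg (Polynomial.map ι) (hodd hn)
    rw [Polynomial.map_mul, hι, hι] at h3
    refine mul_right_cancel₀ (hne' P₁ hP₁) (Eq.trans ?_ h3.symm)
    rw [mul_comm]
    simpa using h.symm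

end Pool.Agent.K1H70.FP
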