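import Pool.Agent.K1H70.FP.Cng
import Pool.Agent.W528.HS.Fin
import Pool.Agent.TH117.HS.Glue

/-!
# Frobenius and actions of abelian `p`-groups: the main theorem
-/

set_option autoImplicit false

namespace Pool.Agent.K1H70.FP

open Finset Polynomial Module Pool.Agent.W528.HS

/-- Squarefree reduction: semisimple. -/
theorem ss_of_red {p : ℕ} (hp : p.Prime) {E : Type} [Field E] [CharZero E] [IsAlgClosed E]
    {W : Type} [AddCommGroup W] [Module E W] [FiniteDimensional E W]
    (Φ : Module.End E W) {H : (ZMod p)[X]} {k : Type} [Field k] [CharP k p]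
    (θ : (integralClosure ℤ E).toSubring →+* k) (A' : Multiset (integralClosure ℤ E).toSubring)
    (hA' : A'.map Subtype.val = Φ.charpoly.roots)
    (hprod : (A'.map fun x => 1 - C (θ x) * X).prod = H.map (ZMod.castHom (dvd_refl p) k))
    (hH : Squarefree H) (hdim : H.natDegree = Module.finrank E W) : Φ.IsSemisimple := by
  classical
  have hfact : Fact p.Prime := ⟨hp⟩
  have hsep : H.Separable := PerfectField.separable_iff_squarefree.mpr hH
  have hsq : Squarefree (H.map (ZMod.castHom (dvd_refl p) k)) := (hsep.map).squarefree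
  have hcard : Φ.charpoly.roots.card = Module.finrank E W := by
    rw [← (IsAlgClosed.splits Φ.charpoly).natDegree_eq_card_roots, LinearMap.charpoly_natDegree]
  have hnodup : Φ.charpoly.roots.Nodup := by
    refine nodup_of_squarefree θ hA' hsq ?_ hprod
    rw [natDegree_map, hdim, hcard]
  have hchar : Φ.charpoly.Separable := by
    rw [← nodup_roots_iff_of_splits (LinearMap.charpoly_monic Φ).ne_zero
      (IsAlgClosed.splits Φ.charpoly)]
    exact hnodup
  exact Module.End.isSemisimple_of_squarefree_aeval_eq_zero hchar.squarefree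
    (LinearMap.aeval_self_charpoly Φ)

/-- Simple root of the reduction: no Jordan blocks. -/
theorem tate_of_red {p : ℕ} (hp : p.Prime) {E : Type} [Field E] [CharZero E] [IsAlgClosed E]
    {W : Type} [AddCommGroup W] [Module E W] [FiniteDimensional E W]
    (Φ : Module.End E W) {H : (ZMod p)[X]} {k : Type} [Field k] [CharP k p]
    (θ : (integralClosure ℤ E).toSubring →+* k) (A' : Multiset (integralClosure ℤ E).toSubring)
    (hA' : A'.map Subtype.val = Φ.charpoly.roots)
    (hprod : (A'.map fun x => 1 - C (θ x) * X).prod = H.map (ZMod.castHom (dvd_refl p) k))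
    (Q : ℤ) (b : ℕ) (hH : ¬ (1 - C (Q : ZMod p) * X) ^ 2 ∣ H) (ζ : E) (hζ : ζ ^ p ^ b = 1) :
    Φ.maxGenEigenspace ((Q : E) * ζ) = Φ.eigenspace ((Q : E) * ζ) := by
  classical
  have hfact : Fact p.Prime := ⟨hp⟩
  have hmain : ∀ S : Multiset E, S ≤ Φ.charpoly.roots →
      (∀ x ∈ S, x ^ p ^ b = (Q : E) ^ p ^ b) → S.card ≤ 1 := by
    intro S hS hS2
    set t := Multiset.card (Multiset.filter (fun x => θ x = (Q : k)) A') with ht
    have hdvd : (1 - C (Q : k) * X) ^ t ∣ (A'.map fun x => 1 - C (θ x) * X).prod := by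
      rw [← Multiset.filter_add_not (fun x => θ x = (Q : k)) A', Multiset.map_add,
        Multiset.prod_add]
      apply Dvd.dvd.mul_right
      have h4 : ((Multiset.filter (fun x => θ x = (Q : k)) A').map fun x => 1 - C (θ x) * X)
          = Multiset.replicate t (1 - C (Q : k) * X : k[X]) := by
        rw [ht, ← Multiset.map_const']
        apply Multiset.map_congr rfl
        intro x hx
        rw [(Multiset.mem_filter.mp hx).2]
      rw [h4, Multiset.prod_replicate]
    have hle : t ≤ 1 := by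
      by_contra hcon
      apply hH
      rw [← Polynomial.map_dvd_map' (ZMod.castHom (dvd_refl p) k), ← hprod]
      have h5 : ((1 - C (Q : ZMod p) * X) ^ 2 : (ZMod p)[X]).map (ZMod.castHom (dvd_refl p) k)
          = (1 - C (Q : k) * X) ^ 2 := by
        simp
      rw [h5]
      exact (pow_dvd_pow _ (by omega)).trans hdvd
    refine le_trans ?_ hle
    have hS3 : S ≤ Multiset.filter (fun x => x ^ p ^ b = (Q : E) ^ p ^ b)
        Φ.charpoly.roots := Multiset.le_filter.mpr ⟨hS, hS2⟩
    refine (Multiset.card_le_card hS3).trans ?_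
    rw [← hA', Multiset.filter_map, Multiset.card_map]
    apply Multiset.card_le_card
    apply Multiset.monotone_filter_right
    intro x hx
    have h8 : (x : E) ^ p ^ b = (Q : E) ^ p ^ b := hx
    have h9 : x ^ p ^ b = (Q : (integralClosure ℤ E).toSubring) ^ p ^ b := by
      apply Subtype.ext
      push_cast
      exact h8
    have h10 := congrArg θ h9
    rw [map_pow, map_pow, map_intCast] at h10
    have h11 : (θ x - (Q : k)) ^ p ^ b = 0 := by
      rw [sub_pow_char_pow, h10, sub_self]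
    exact sub_eq_zero.mp ((pow_eq_zero_iff (pow_pos hp.pos b).ne').mp h11)
  exact (eigen_q Φ b (Q : E) 1 hmain ζ hζ).2 rfl

theorem mem_part {G E V : Type} [CommGroup G] [Field E] [AddCommGroup V] [Module E V]
    {ρ : G →* Module.End E V} {ψ : G →* Eˣ} {v : V} :
    v ∈ part ρ ψ ↔ ∀ g, ρ g v = (ψ g : E) • v := by
  unfold part
  simp only [Submodule.mem_iInf, Module.End.mem_eigenspace_iff]

theorem mapsTo_part {G E V : Type} [CommGroup G] [Field E] [AddCommGroup V] [Module E V]
    {ρ : G →* Module.End E V} {Φ : Module.End E V} (hc : ∀ g, Commute Φ (ρ g)) (ψ : G →* Eˣ) :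
    ∀ v ∈ part ρ ψ, Φ v ∈ part ρ ψ := by
  intro v hv
  rw [mem_part] at hv ⊢
  intro g
  have h1 : ρ g (Φ v) = Φ (ρ g v) := (LinearMap.congr_fun (hc g) v).symm
  rw [h1, hv g, map_smul]

/-- Reduction of the endomorphism on the part of a nontrivial character. -/
theorem red_part (hOCX : S_OCX) (hTRP : S_TRP) {p r : ℕ} (hp : p.Prime) {G Y E : Type} [CommGroup G]
    [Fintype G] [MulAction G Y] [Field E] [CharZero E] [IsAlgClosed E]
    (hG : Fintype.card G = p ^ r)
    (Fr : Equiv.Perm Y) (hFr : ∀ (g : G) (x : Y), Fr (g • x) = g • Fr x)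
    (hfin : ∀ m : ℕ, 1 ≤ m → ∀ g : G, {x : Y | (Fr ^ m) x = g • x}.Finite)
    {V : Type} [AddCommGroup V] [Module E V] [FiniteDimensional E V]
    (Φ : Module.End E V) (ρ : G →* Module.End E V) (hc : ∀ g, Commute Φ (ρ g)) (n : ℕ) (c : ℕ → E)
    (hL : ∀ m : ℕ, 1 ≤ m → ∀ g : G, c m + (-1) ^ n * LinearMap.trace E V (Φ ^ m * ρ g)
      = ({x : Y | (Fr ^ m) x = g • x}.ncard : E))
    (ψ : G →* Eˣ) (hψ : ψ ≠ 1) {H : (ZMod p)[X]} (hH : ZetaMod E p n (orbN Fr ψ) H) :
    ∃ (k : Type) (_ : Field k) (_ : CharP k p) (θ : (integralClosure ℤ E).toSubring →+* k)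
      (A' : Multiset (integralClosure ℤ E).toSubring),
      A'.map Subtype.val = (LinearMap.charpoly (Φ.restrict (mapsTo_part hc ψ))).roots ∧
      (A'.map fun x => 1 - C (θ x) * X).prod = H.map (ZMod.castHom (dvd_refl p) k) := by
  classical
  refine cng hOCX hp hG Fr hFr hfin ψ (Φ.restrict (mapsTo_part hc ψ)) n ?_ hH
  intro m hm
  have h0 : ∑ g : G, (((ψ g)⁻¹ : Eˣ) : E) = 0 := by
    obtain ⟨g0, hg0⟩ : ∃ g0, ψ g0 ≠ 1 := by
      by_contra hcon
      simp only [not_exists, not_not] at hcon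
      exact hψ (MonoidHom.ext hcon)
    have h1 : (((ψ g0)⁻¹ : Eˣ) : E) * ∑ g : G, (((ψ g)⁻¹ : Eˣ) : E)
        = ∑ g : G, (((ψ g)⁻¹ : Eˣ) : E) := by
      rw [Finset.mul_sum]
      refine Fintype.sum_equiv (Equiv.mulLeft g0) _ _ fun g => ?_
      rw [Equiv.coe_mulLeft, map_mul, mul_inv, Units.val_mul]
    have h2 : ((((ψ g0)⁻¹ : Eˣ) : E) - 1) * ∑ g : G, (((ψ g)⁻¹ : Eˣ) : E) = 0 := by
      rw [sub_mul, one_mul, h1, sub_self]
    rcases mul_eq_zero.1 h2 with h3 | h3
    · exfalso
      apply hg0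
      have h4 : (((ψ g0)⁻¹ : Eˣ) : E) = ((1 : Eˣ) : E) := by
        rw [Units.val_one]; exact sub_eq_zero.1 h3
      exact inv_eq_one.1 (Units.ext h4)
    · exact h3
  have h1 := hTRP G E V ρ Φ hc ψ (mapsTo_part hc ψ) m
  have h3 : ∀ g, (-1) ^ n * LinearMap.trace E V (Φ ^ m * ρ g) =
      ({x : Y | (Fr ^ m) x = g • x}.ncard : E) - c m := by
    intro g
    have := hL m hm g
    linear_combination this
  calc (Fintype.card G : E) * ((-1) ^ n * LinearMap.trace E _ ((Φ.restrict (mapsTo_part hc ψ)) ^ m))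
      = (-1) ^ n * ((Fintype.card G : E) *
          LinearMap.trace E _ ((Φ.restrict (mapsTo_part hc ψ)) ^ m)) := by ring
    _ = ∑ g : G, (((ψ g)⁻¹ : Eˣ) : E) * ((-1) ^ n * LinearMap.trace E V (Φ ^ m * ρ g)) := by
        rw [h1, Finset.mul_sum]
        exact Finset.sum_congr rfl fun g _ => by ring
    _ = ∑ g : G, ((((ψ g)⁻¹ : Eˣ) : E) * ({x : Y | (Fr ^ m) x = g • x}.ncard : E)
          - (((ψ g)⁻¹ : Eˣ) : E) * c m) :=
        Finset.sum_congr rfl fun g _ => by rw [h3]; ring
    _ = _ := by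
        rw [Finset.sum_sub_distrib, ← Finset.sum_mul, h0, zero_mul, sub_zero]

/-- Main theorem. -/
theorem main (hOCX : S_OCX) (hDEC : S_DEC) (hTRP : S_TRP) {p r : ℕ} (hp : p.Prime) {G Y E : Type}
    [CommGroup G] [Fintype G] [MulAction G Y] [Field E] [CharZero E] [IsAlgClosed E]
    (hG : Fintype.card G = p ^ r)
    (Fr : Equiv.Perm Y) (hFr : ∀ (g : G) (x : Y), Fr (g • x) = g • Fr x)
    (hfin : ∀ m : ℕ, 1 ≤ m → ∀ g : G, {x : Y | (Fr ^ m) x = g • x}.Finite)
    {V : Type} [AddCommGroup V] [Module E V] [FiniteDimensional E V]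
    (Φ : Module.End E V) (ρ : G →* Module.End E V) (hc : ∀ g, Commute Φ (ρ g)) (n : ℕ) (c : ℕ → E)
    (hL : ∀ m : ℕ, 1 ≤ m → ∀ g : G, c m + (-1) ^ n * LinearMap.trace E V (Φ ^ m * ρ g)
      = ({x : Y | (Fr ^ m) x = g • x}.ncard : E))
    (H : (G →* Eˣ) → (ZMod p)[X])
    (hH : ∀ ψ : G →* Eˣ, ψ ≠ 1 → ZetaMod E p n (orbN Fr ψ) (H ψ)) :
    ((∀ ψ : G →* Eˣ, ψ ≠ 1 → Squarefree (H ψ) ∧
        (H ψ).natDegree = Module.finrank E (part ρ ψ)) →
      (∀ v, (∀ g, ρ g v = v) → v ∈ ⨆ α, Φ.eigenspace α) → Φ.IsSemisimple) ∧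
    (∀ (Q : ℤ) (b : ℕ) (ζ : E), ζ ^ p ^ b = 1 →
      (∀ ψ : G →* Eˣ, ψ ≠ 1 → ¬ (1 - C (Q : ZMod p) * X) ^ 2 ∣ H ψ) →
      (∀ v, (∀ g, ρ g v = v) → v ∈ Φ.maxGenEigenspace (Q * ζ) → Φ v = ((Q : E) * ζ) • v) →
      Φ.maxGenEigenspace ((Q : E) * ζ) = Φ.eigenspace ((Q : E) * ζ)) := by
  classical
  constructor
  · intro h1 h2
    refine Pool.Agent.TH117.HS.semisimple_of_iSup Φ ?_
    rw [eq_top_iff, ← hDEC G E V ρ]
    refine iSup_le fun ψ => ?_
    by_cases hψ : ψ = 1
    · intro v hv
      rw [mem_part] at hv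
      apply h2
      intro g
      rw [hv g, hψ, MonoidHom.one_apply, Units.val_one, one_smul]
    · obtain ⟨k, _, _, θ, A', hA', hprod⟩ := red_part hOCX hTRP hp hG Fr hFr hfin Φ ρ hc n c hL ψ hψ
        (hH ψ hψ)
      have hss := ss_of_red hp _ θ A' hA' hprod (h1 ψ hψ).1 (h1 ψ hψ).2
      have h3 := hss.iSup_eigenspace_eq_top
      intro v hv
      have h4 : (⟨v, hv⟩ : part ρ ψ) ∈
          ⨆ α, Module.End.eigenspace (Φ.restrict (mapsTo_part hc ψ)) α := by
        rw [h3]
        exact Submodule.mem_top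
      have h5 : (⨆ α, Module.End.eigenspace (Φ.restrict (mapsTo_part hc ψ)) α) ≤
          (⨆ α, Φ.eigenspace α).comap (part ρ ψ).subtype := by
        refine iSup_le fun α w hw => ?_
        rw [Submodule.mem_comap]
        refine Submodule.mem_iSup_of_mem α ?_
        rw [Module.End.mem_eigenspace_iff] at hw ⊢
        exact congrArg Subtype.val hw
      exact h5 h4
  · intro Q b ζ hζ h1 h2
    set α : E := (Q : E) * ζ with hα
    have hle : Φ.eigenspace α ≤ Φ.maxGenEigenspace α := (Φ.genEigenspace α).mono le_top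
    refine le_antisymm ?_ hle
    -- the group acts on the generalized eigenspace
    have hK : ∀ g, ∀ v ∈ Φ.maxGenEigenspace α, ρ g v ∈ Φ.maxGenEigenspace α := fun g =>
      Module.End.mapsTo_maxGenEigenspace_of_comm (hc g) α
    let ρK : G →* Module.End E (Φ.maxGenEigenspace α) :=
      { toFun := fun g => (ρ g).restrict (hK g)
        map_one' := by
          ext v
          simp
        map_mul' := by
          intro g h
          ext v
          simp }
    have hpart : ∀ ψ : G →* Eˣ, ∀ v ∈ part ρK ψ, Φ v.1 = α • v.1 := by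
      intro ψ v hv
      rw [mem_part] at hv
      have hv' : ∀ g, ρ g v.1 = (ψ g : E) • v.1 := fun g => congrArg Subtype.val (hv g)
      by_cases hψ : ψ = 1
      · refine h2 v.1 (fun g => ?_) v.2
        rw [hv' g, hψ, MonoidHom.one_apply, Units.val_one, one_smul]
      · obtain ⟨k, _, _, θ, A', hA', hprod⟩ := red_part hOCX hTRP hp hG Fr hFr hfin Φ ρ hc n c hL ψ
          hψ (hH ψ hψ)
        have h3 := tate_of_red hp _ θ A' hA' hprod Q b (h1 ψ hψ) ζ hζ
        have hmem : v.1 ∈ part ρ ψ := mem_part.2 hv'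
        have h4 : (⟨v.1, hmem⟩ : part ρ ψ) ∈
            Module.End.maxGenEigenspace (Φ.restrict (mapsTo_part hc ψ)) α := by
          obtain ⟨j, hj⟩ := (Module.End.mem_maxGenEigenspace _ _ _).1 v.2
          rw [Module.End.mem_maxGenEigenspace]
          refine ⟨j, ?_⟩
          apply Subtype.ext
          have h5 : ∀ (j : ℕ) (w : part ρ ψ),
              ((((Φ.restrict (mapsTo_part hc ψ)) - α • (1 : Module.End E (part ρ ψ))) ^ j) w).1
                = ((Φ - α • (1 : Module.End E V)) ^ j) w.1 := by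
            intro j
            induction j with
            | zero => intro w; rfl
            | succ j ih =>
              intro w
              rw [pow_succ, pow_succ, Module.End.mul_apply, Module.End.mul_apply, ih]
              rfl
          rw [h5]
          exact hj
        rw [h3, Module.End.mem_eigenspace_iff] at h4
        exact congrArg Subtype.val h4
    intro v hv
    rw [Module.End.mem_eigenspace_iff]
    have htop : (⨆ ψ : G →* Eˣ, part ρK ψ) ≤
        (Φ.eigenspace α).comap (Φ.maxGenEigenspace α).subtype := by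
      refine iSup_le fun ψ w hw => ?_
      rw [Submodule.mem_comap, Module.End.mem_eigenspace_iff]
      exact hpart ψ w hw
    have h6 : (⟨v, hv⟩ : Φ.maxGenEigenspace α) ∈ ⨆ ψ : G →* Eˣ, part ρK ψ := by
      rw [hDEC]
      exact Submodule.mem_top
    have h7 := htop h6
    rw [Submodule.mem_comap, Module.End.mem_eigenspace_iff] at h7
    exact h7

end Pool.Agent.K1H70.FP
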