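import Pool.Agent.W528.HS.Stm

/-!
# Frobenius and actions of abelian `p`-groups: interface

Project FP (helper70): `X` is the set of the geometric points of a variety over a finite field, `Fr` the Frobenius,
`G` a finite abelian group acting on `X` and commuting with `Fr`, `V` a cohomology group.
-/

set_option autoImplicit false

namespace Pool.Agent.K1H70.FP

open Finset Polynomial Module

/-- The number of the `G`-orbits `O` in `X` with `Fr ^ m O = O` whose points have their stabilizer in the kernel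
of the character `ψ`. -/
noncomputable def orbN {G X E : Type} [CommGroup G] [MulAction G X] [Field E] (Fr : Equiv.Perm X)
    (ψ : G →* Eˣ) (m : ℕ) : ℕ :=
  Set.ncard {O : Set X | ∃ x : X, O = MulAction.orbit G x ∧ (Fr ^ m) x ∈ MulAction.orbit G x ∧
    MulAction.stabilizer G x ≤ ψ.ker}

/-- The part of `V` on which the group acts by the character `ψ`. -/
def part {G E V : Type} [CommGroup G] [Field E] [AddCommGroup V] [Module E V]
    (ρ : G →* Module.End E V) (ψ : G →* Eˣ) : Submodule E V :=
  ⨅ g : G, (ρ g).eigenspace (ψ g : E)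

/-- Closed points of the quotient: `a d i` is the number of the closed points of degree `d` (periodic orbits of `Fr`
of length `d` on the set of the `G`-orbits with stabilizer in the kernel of `ψ`) where `Fr ^ d x = h x` with
`ψ h = μ ^ i`. -/
def S_OCX : Prop :=
  ∀ (G X E : Type) [CommGroup G] [Fintype G] [MulAction G X] [Field E] [CharZero E] (Fr : Equiv.Perm X),
    (∀ (g : G) (x : X), Fr (g • x) = g • Fr x) →
    (∀ m : ℕ, 1 ≤ m → ∀ g : G, {x : X | (Fr ^ m) x = g • x}.Finite) →
    ∀ (N : ℕ) (μ : E), 0 < N → IsPrimitiveRoot μ N →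
    ∀ ψ : G →* Eˣ, (∀ g : G, (ψ g : E) ^ N = 1) →
    ∃ a : ℕ → ℕ → ℕ, ∀ m : ℕ, 1 ≤ m →
      (∑ g : G, (ψ g : E) * ({x : X | (Fr ^ m) x = g • x}.ncard : E)
        = (Fintype.card G : E) * Pool.Agent.W528.HS.orbSum N μ a m) ∧
      (orbN Fr ψ m : E) = Pool.Agent.W528.HS.orbSum N (1 : E) a m

/-- Decomposition into the parts of the characters. -/
def S_DEC : Prop :=
  ∀ (G E V : Type) [CommGroup G] [Fintype G] [Field E] [CharZero E] [IsAlgClosed E] [AddCommGroup V]
    [Module E V] [FiniteDimensional E V] (ρ : G →* Module.End E V),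
    ⨆ ψ : G →* Eˣ, part ρ ψ = ⊤

/-- Traces on the parts. -/
def S_TRP : Prop :=
  ∀ (G E V : Type) [CommGroup G] [Fintype G] [Field E] [CharZero E] [IsAlgClosed E] [AddCommGroup V]
    [Module E V] [FiniteDimensional E V] (ρ : G →* Module.End E V) (Φ : Module.End E V),
    (∀ g, Commute Φ (ρ g)) → ∀ (ψ : G →* Eˣ) (h : ∀ v ∈ part ρ ψ, Φ v ∈ part ρ ψ) (m : ℕ),
    (Fintype.card G : E) * LinearMap.trace E (part ρ ψ) ((Φ.restrict h) ^ m)
      = ∑ g : G, ((ψ g)⁻¹ : Eˣ) * LinearMap.trace E V (Φ ^ m * ρ g)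

end Pool.Agent.K1H70.FP
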