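import Pool.Agent.K1H70.FP.Main
import Pool.Agent.K1H78.FP.OCX
import Pool.Agent.K1H68.FP.Dec

/-!
# Frobenius and symmetry groups
-/

set_option autoImplicit false

namespace Pool.Agent.K1H70.FS

open Finset Polynomial Module Pool.Agent.W528.HS Pool.Agent.K1H70.FP

/-- The number of the `K`-orbits `O` in `S` with `Fr ^ m O = O` whose points have their stabilizer in the kernel of
the character `ψ` of the subgroup `K`. -/
noncomputable def orbCount {G S E : Type} [Group G] [MulAction G S] [Field E] (Fr : Equiv.Perm S)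
    (K : Subgroup G) (ψ : K →* Eˣ) (m : ℕ) : ℕ :=
  Set.ncard {O : Set S | ∃ x : S, O = {y | ∃ g ∈ K, y = g • x} ∧ (Fr ^ m) x ∈ O ∧
    ∀ g : K, (g : G) • x = x → ψ g = 1}

/-- The part of `V` on which the subgroup `K` acts by the character `ψ`. -/
def eigenPart {G E V : Type} [Group G] [Field E] [AddCommGroup V] [Module E V]
    (ρ : G →* Module.End E V) (K : Subgroup G) (ψ : K →* Eˣ) : Submodule E V :=
  ⨅ g : K, (ρ g).eigenspace (ψ g : E)

section LA

variable {E : Type} [Field E] {V : Type} [AddCommGroup V] [Module E V] [FiniteDimensional E V]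

theorem mem_iSup_ker {f : Module.End E V} {v : V} :
    v ∈ (⨆ k : ℕ, LinearMap.ker (f ^ k)) ↔ ∃ k : ℕ, (f ^ k) v = 0 := by
  have hmono : Monotone fun k : ℕ => LinearMap.ker (f ^ k) := by
    intro a b hab w hw
    obtain ⟨c, rfl⟩ := Nat.exists_eq_add_of_le hab
    rw [LinearMap.mem_ker] at hw ⊢
    rw [add_comm, pow_add, Module.End.mul_apply, hw, map_zero]
  rw [Submodule.mem_iSup_of_directed _ hmono.directed_le]
  rfl

/-- The sum of the eigenspace and of the complement of the generalized eigenspace. -/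
def good (Φ : Module.End E V) (α : E) : Submodule E V :=
  Φ.eigenspace α ⊔ ⨅ k : ℕ, LinearMap.range ((Φ - α • (1 : Module.End E V)) ^ k)

theorem le_good (Φ : Module.End E V) (α : E) (W : Submodule E V) (hW : ∀ v ∈ W, Φ v ∈ W)
    (h : ∀ v ∈ W, v ∈ Φ.maxGenEigenspace α → Φ v = α • v) : W ≤ good Φ α := by
  intro w hw
  set Ψ : Module.End E W := Φ.restrict hW with hΨ
  set f : Module.End E W := Ψ - α • 1 with hf
  have hpow : ∀ (k : ℕ) (w : W), ((f ^ k) w : V) = ((Φ - α • (1 : Module.End E V)) ^ k) w := by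
    intro k
    induction k with
    | zero => intro w; rfl
    | succ k ih =>
      intro w
      rw [pow_succ, pow_succ, Module.End.mul_apply, Module.End.mul_apply, ih]
      rfl
  have hC := LinearMap.isCompl_iSup_ker_pow_iInf_range_pow f
  have h1 : (⟨w, hw⟩ : W) ∈ (⨆ k : ℕ, LinearMap.ker (f ^ k)) ⊔ ⨅ k : ℕ, LinearMap.range (f ^ k) := by
    rw [hC.sup_eq_top]
    exact Submodule.mem_top
  obtain ⟨a, ha, b, hb, hab⟩ := Submodule.mem_sup.1 h1
  obtain ⟨k, hk⟩ := mem_iSup_ker.1 ha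
  have h2 : (a : V) ∈ Φ.maxGenEigenspace α := by
    rw [Module.End.mem_maxGenEigenspace]
    refine ⟨k, ?_⟩
    rw [← hpow, hk]
    rfl
  have h3 := h a a.2 h2
  have h4 : w = (a : V) + (b : V) := by
    have := congrArg Subtype.val hab
    exact this.symm
  rw [h4]
  refine Submodule.add_mem_sup ?_ ?_
  · rw [Module.End.mem_eigenspace_iff]
    exact h3
  · rw [Submodule.mem_iInf] at hb ⊢
    intro k
    obtain ⟨z, hz⟩ := hb k
    refine ⟨(z : V), ?_⟩
    rw [← hpow, hz]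

theorem good_stable {Φ : Module.End E V} {α : E} {g : Module.End E V} (hg : Commute Φ g) {v : V}
    (hv : v ∈ good Φ α) : g v ∈ good Φ α := by
  obtain ⟨a, ha, b, hb, rfl⟩ := Submodule.mem_sup.1 hv
  rw [map_add]
  refine Submodule.add_mem_sup ?_ ?_
  · rw [Module.End.mem_eigenspace_iff] at ha ⊢
    have h1 : Φ (g a) = g (Φ a) := LinearMap.congr_fun hg a
    rw [h1, ha, map_smul]
  · rw [Submodule.mem_iInf] at hb ⊢
    intro k
    obtain ⟨z, hz⟩ := hb k
    refine ⟨g z, ?_⟩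
    have h2 : Commute ((Φ - α • (1 : Module.End E V)) ^ k) g := by
      apply Commute.pow_left
      exact hg.sub_left ((Commute.one_left g).smul_left α)
    have h3 : ((Φ - α • (1 : Module.End E V)) ^ k) (g z)
        = g (((Φ - α • (1 : Module.End E V)) ^ k) z) := LinearMap.congr_fun h2 z
    rw [h3, hz]

theorem of_good {Φ : Module.End E V} {α : E} (h : good Φ α = ⊤) :
    Φ.maxGenEigenspace α = Φ.eigenspace α := by
  refine le_antisymm ?_ ((Φ.genEigenspace α).mono le_top)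
  intro v hv
  have h1 : v ∈ good Φ α := by
    rw [h]
    exact Submodule.mem_top
  obtain ⟨a, ha, b, hb, rfl⟩ := Submodule.mem_sup.1 h1
  have h2 : a ∈ Φ.maxGenEigenspace α := ((Φ.genEigenspace α).mono le_top) ha
  have h3 : b ∈ Φ.maxGenEigenspace α := by
    have := Submodule.sub_mem _ hv h2
    rwa [add_sub_cancel_left] at this
  have hC := LinearMap.isCompl_iSup_ker_pow_iInf_range_pow (Φ - α • (1 : Module.End E V))
  have h4 : b ∈ (⨆ k : ℕ, LinearMap.ker ((Φ - α • (1 : Module.End E V)) ^ k)) :=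
    mem_iSup_ker.2 ((Module.End.mem_maxGenEigenspace _ _ _).1 h3)
  have h5 : b = 0 := by
    have := hC.disjoint.le_bot ⟨h4, hb⟩
    exact (Submodule.mem_bot E).1 this
  rw [h5, add_zero]
  exact ha

theorem iSup_stable {Φ : Module.End E V} {g : Module.End E V} (hg : Commute Φ g) {v : V}
    (hv : v ∈ ⨆ α, Φ.eigenspace α) : g v ∈ ⨆ α, Φ.eigenspace α := by
  have h : (⨆ α, Φ.eigenspace α) ≤ (⨆ α, Φ.eigenspace α).comap g := by
    refine iSup_le fun α w hw => ?_
    rw [Submodule.mem_comap]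
    refine Submodule.mem_iSup_of_mem α ?_
    rw [Module.End.mem_eigenspace_iff] at hw ⊢
    have h1 : Φ (g w) = g (Φ w) := LinearMap.congr_fun hg w
    rw [h1, hw, map_smul]
  exact h hv

end LA

section

variable {G S E : Type} [Group G] [MulAction G S] [Field E] [CharZero E] [IsAlgClosed E]
  {V : Type} [AddCommGroup V] [Module E V] [FiniteDimensional E V]

theorem mem_eigenPart {ρ : G →* Module.End E V} {K : Subgroup G} {ψ : K →* Eˣ} {v : V} :
    v ∈ eigenPart ρ K ψ ↔ ∀ g : K, ρ g v = (ψ g : E) • v := by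
  unfold eigenPart
  simp only [Submodule.mem_iInf, Module.End.mem_eigenspace_iff]

theorem stable_eigenPart {ρ : G →* Module.End E V} {Φ : Module.End E V}
    (hc : ∀ g, Commute Φ (ρ g)) (K : Subgroup G) (ψ : K →* Eˣ) :
    ∀ v ∈ eigenPart ρ K ψ, Φ v ∈ eigenPart ρ K ψ := by
  intro v hv
  rw [mem_eigenPart] at hv ⊢
  intro g
  have h1 : ρ g (Φ v) = Φ (ρ g v) := (LinearMap.congr_fun (hc g) v).symm
  rw [h1, hv g, map_smul]

/-- The two consequences for one subgroup. -/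
theorem one (Fr : Equiv.Perm S) (hFr : ∀ (g : G) (x : S), Fr (g • x) = g • Fr x)
    (Φ : Module.End E V) (ρ : G →* Module.End E V) (hc : ∀ g, Commute Φ (ρ g)) (n : ℕ) (c : ℕ → E)
    (K : Subgroup G) (hcomm : ∀ g ∈ K, ∀ h ∈ K, g * h = h * g) {p r : ℕ} (hp : p.Prime)
    (hK : Nat.card K = p ^ r)
    (hfin : ∀ m : ℕ, 1 ≤ m → ∀ g ∈ K, {x : S | (Fr ^ m) x = g • x}.Finite)
    (hL : ∀ m : ℕ, 1 ≤ m → ∀ g ∈ K, c m + (-1) ^ n * LinearMap.trace E V (Φ ^ m * ρ g)
      = ({x : S | (Fr ^ m) x = g • x}.ncard : E))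
    (ψ : K →* Eˣ) (hψ : ψ ≠ 1) (H : (ZMod p)[X]) (hH : ZetaMod E p n (orbCount Fr K ψ) H) :
    (Squarefree H → H.natDegree = Module.finrank E (eigenPart ρ K ψ) →
      eigenPart ρ K ψ ≤ ⨆ α, Φ.eigenspace α) ∧
    (∀ (Q : ℤ) (b : ℕ) (ζ : E), ζ ^ p ^ b = 1 → ¬ (1 - C (Q : ZMod p) * X) ^ 2 ∣ H →
      ∀ v ∈ eigenPart ρ K ψ, v ∈ Φ.maxGenEigenspace (Q * ζ) → Φ v = ((Q : E) * ζ) • v) := by
  classical
  letI iK : CommGroup K :=
    { (inferInstance : Group K) with
      mul_comm := fun a b => Subtype.ext (hcomm a a.2 b b.2) }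
  have hpos : 0 < Nat.card K := by
    rw [hK]
    exact pow_pos hp.pos r
  haveI : Finite K := Nat.finite_of_card_ne_zero hpos.ne'
  letI : Fintype K := Fintype.ofFinite K
  have hK' : Fintype.card K = p ^ r := by rw [← Nat.card_eq_fintype_card, hK]
  let ρ' : K →* Module.End E V := ρ.comp K.subtype
  have hN : (fun m => orbN Fr ψ m) = fun m => orbCount Fr K ψ m := by
    funext m
    unfold orbN orbCount
    congr 1
    ext O
    simp only [Set.mem_setOf_eq]
    constructor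
    · rintro ⟨x, rfl, h1, h2⟩
      have h0 : MulAction.orbit K x = {y | ∃ g ∈ K, y = g • x} := by
        ext y
        constructor
        · rintro ⟨g, rfl⟩
          exact ⟨g, g.2, rfl⟩
        · rintro ⟨g, hg, rfl⟩
          exact ⟨⟨g, hg⟩, rfl⟩
      refine ⟨x, h0, h1, fun g hg => ?_⟩
      exact MonoidHom.mem_ker.1 (h2 (MulAction.mem_stabilizer_iff.2 hg))
    · rintro ⟨x, rfl, h1, h2⟩
      have h0 : MulAction.orbit K x = {y | ∃ g ∈ K, y = g • x} := by
        ext y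
        constructor
        · rintro ⟨g, rfl⟩
          exact ⟨g, g.2, rfl⟩
        · rintro ⟨g, hg, rfl⟩
          exact ⟨⟨g, hg⟩, rfl⟩
      refine ⟨x, h0.symm, by rw [h0]; exact h1, fun g hg => ?_⟩
      exact MonoidHom.mem_ker.2 (h2 g (MulAction.mem_stabilizer_iff.1 hg))
  have hpart : part ρ' ψ = eigenPart ρ K ψ := rfl
  obtain ⟨k, _, _, θ, A', hA', hprod⟩ := red_part Pool.Agent.K1H78.FP.t_OCX Pool.Agent.K1H68.FP.t_TRP
    hp (G := K) (Y := S) hK' Fr (fun g x => hFr g x) (fun m hm g => hfin m hm g g.2) Φ ρ'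
    (fun g => hc g) n c (fun m hm g => hL m hm g g.2) ψ hψ (H := H)
    (by
      have : ZetaMod E p n (fun m => orbN Fr ψ m) H := by rw [hN]; exact hH
      exact this)
  constructor
  · intro hsq hdeg
    have hss := ss_of_red hp _ θ A' hA' hprod hsq hdeg
    have h3 := hss.iSup_eigenspace_eq_top
    intro v hv
    have h4 : (⟨v, hv⟩ : part ρ' ψ) ∈
        ⨆ α, Module.End.eigenspace (Φ.restrict (mapsTo_part (fun g : K => hc g) ψ)) α := by
      rw [h3]
      exact Submodule.mem_top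
    have h5 : (⨆ α, Module.End.eigenspace (Φ.restrict (mapsTo_part (ρ := ρ') (fun g : K => hc g) ψ)) α) ≤
        (⨆ α, Φ.eigenspace α).comap (part ρ' ψ).subtype := by
      refine iSup_le fun α w hw => ?_
      rw [Submodule.mem_comap]
      refine Submodule.mem_iSup_of_mem α ?_
      rw [Module.End.mem_eigenspace_iff] at hw ⊢
      exact congrArg Subtype.val hw
    exact h5 h4
  · intro Q b ζ hζ hnd v hv hv2
    have h3 := tate_of_red hp _ θ A' hA' hprod Q b hnd ζ hζ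
    have h4 : (⟨v, hv⟩ : part ρ' ψ) ∈
        Module.End.maxGenEigenspace (Φ.restrict (mapsTo_part (ρ := ρ') (fun g : K => hc g) ψ))
          ((Q : E) * ζ) := by
      obtain ⟨j, hj⟩ := (Module.End.mem_maxGenEigenspace _ _ _).1 hv2
      rw [Module.End.mem_maxGenEigenspace]
      refine ⟨j, ?_⟩
      apply Subtype.ext
      have h5 : ∀ (j : ℕ) (w : part ρ' ψ),
          ((((Φ.restrict (mapsTo_part (ρ := ρ') (fun g : K => hc g) ψ)) -
            ((Q : E) * ζ) • (1 : Module.End E (part ρ' ψ))) ^ j) w).1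
            = ((Φ - ((Q : E) * ζ) • (1 : Module.End E V)) ^ j) w.1 := by
        intro j
        induction j with
        | zero => intro w; rfl
        | succ j ih =>
          intro w
          rw [pow_succ, pow_succ, Module.End.mul_apply, Module.End.mul_apply, ih]
          rfl
      rw [h5]
      exact hj
    rw [h3, Module.End.mem_eigenspace_iff] at h4
    exact congrArg Subtype.val h4

/-- Main theorem for symmetry groups. -/
theorem main_sym (Fr : Equiv.Perm S) (hFr : ∀ (g : G) (x : S), Fr (g • x) = g • Fr x)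
    (Φ : Module.End E V) (ρ : G →* Module.End E V) (hc : ∀ g, Commute Φ (ρ g)) (n : ℕ) (c : ℕ → E)
    {ι : Type} (K : ι → Subgroup G) (hcomm : ∀ i, ∀ g ∈ K i, ∀ h ∈ K i, g * h = h * g)
    (p r : ι → ℕ) (hp : ∀ i, (p i).Prime) (hK : ∀ i, Nat.card (K i) = p i ^ r i)
    (hfin : ∀ i, ∀ m : ℕ, 1 ≤ m → ∀ g ∈ K i, {x : S | (Fr ^ m) x = g • x}.Finite)
    (hL : ∀ i, ∀ m : ℕ, 1 ≤ m → ∀ g ∈ K i, c m + (-1) ^ n * LinearMap.trace E V (Φ ^ m * ρ g)
      = ({x : S | (Fr ^ m) x = g • x}.ncard : E))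
    (ψ : ∀ i, K i →* Eˣ) (hψ : ∀ i, ψ i ≠ 1) (H : ∀ i, (ZMod (p i))[X])
    (hH : ∀ i, ZetaMod E (p i) n (orbCount Fr (K i) (ψ i)) (H i))
    (W : Submodule E V) (hW : ∀ v ∈ W, Φ v ∈ W)
    (hgen : (⨆ i, ⨆ g : G, (eigenPart ρ (K i) (ψ i)).map (ρ g)) ⊔ W = ⊤) :
    ((∀ i, Squarefree (H i) ∧ (H i).natDegree = Module.finrank E (eigenPart ρ (K i) (ψ i))) →
      W ≤ ⨆ α, Φ.eigenspace α → Φ.IsSemisimple) ∧
    (∀ (Q : ℤ) (ζ : E), (∀ i, ∃ b : ℕ, ζ ^ p i ^ b = 1) →
      (∀ i, ¬ (1 - C (Q : ZMod (p i)) * X) ^ 2 ∣ H i) →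
      (∀ v ∈ W, v ∈ Φ.maxGenEigenspace (Q * ζ) → Φ v = ((Q : E) * ζ) • v) →
      Φ.maxGenEigenspace ((Q : E) * ζ) = Φ.eigenspace ((Q : E) * ζ)) := by
  have h1 := fun i => one Fr hFr Φ ρ hc n c (K i) (hcomm i) (hp i) (hK i) (hfin i) (hL i) (ψ i)
    (hψ i) (H i) (hH i)
  constructor
  · intro h2 h3
    refine Pool.Agent.TH117.HS.semisimple_of_iSup Φ ?_
    rw [eq_top_iff, ← hgen]
    refine sup_le (iSup_le fun i => iSup_le fun g => ?_) h3
    rintro _ ⟨v, hv, rfl⟩
    exact iSup_stable (hc g) ((h1 i).1 (h2 i).1 (h2 i).2 hv)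
  · intro Q ζ hζ h2 h3
    apply of_good
    rw [eq_top_iff, ← hgen]
    refine sup_le (iSup_le fun i => iSup_le fun g => ?_) (le_good Φ _ W hW h3)
    rintro _ ⟨v, hv, rfl⟩
    obtain ⟨b, hb⟩ := hζ i
    exact good_stable (hc g) (le_good Φ _ _ (stable_eigenPart hc (K i) (ψ i))
      ((h1 i).2 Q b ζ hb (h2 i)) hv)

end

end Pool.Agent.K1H70.FS
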